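import Pool.Agent.KS7_39.D50.Dn

set_option autoImplicit false

namespace Pool.Agent.Results.MP_e6a955_gt.CoarseRetract
open Pool.Agent.KS7_39.D50

/-- Covering dimension at most `n`: every finite cozero cover has a finite cozero refinement in
which every point lies in at most `n + 1` members. -/
def DimLE (n : ℕ) (X : Type) [TopologicalSpace X] : Prop :=
  ∀ (k : ℕ) (U : Fin k → Set X), (∀ i, ∃ f : C(X, ℝ), U i = {x | f x ≠ 0}) →
    (⋃ i, U i) = Set.univ → ∃ (m : ℕ) (V : Fin m → Set X),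
      (∀ j, ∃ f : C(X, ℝ), V j = {x | f x ≠ 0}) ∧ (⋃ j, V j) = Set.univ ∧
      (∀ j, ∃ i, V j ⊆ U i) ∧ ∀ s : Finset (Fin m), s.card = n + 2 → (⋂ j ∈ s, V j) = ∅

/-- Each functional `f ↦ φ f y` is uniformly continuous, for the uniformity of pointwise
convergence, on every pointwise bounded set of continuous functions. -/
def UniformOnBounded {X Y : Type} [TopologicalSpace X] [TopologicalSpace Y]
    (φ : C(X, ℝ) → C(Y, ℝ)) : Prop :=
  ∀ (b : X → ℝ) (y : Y) (η : ℝ), 0 < η → ∃ (F : Finset X) (δ : ℝ), 0 < δ ∧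
    ∀ f f' : C(X, ℝ), (∀ x, |f x| ≤ b x) → (∀ x, |f' x| ≤ b x) →
      (∀ x ∈ F, |f x - f' x| < δ) → |φ f y - φ f' y| < η

/-- Dimension does not increase under coarse retractions `C_p(X) → C_p(Y)` which are uniformly
continuous on bounded sets; in particular the answer to Q1 is positive (no separation axiom is
used), and one direction needs only a one-sided inverse and continuity on compact sets. -/
theorem result (X Y : Type) [TopologicalSpace X] [TopologicalSpace Y] (n : ℕ) :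
    (∀ (φ : C(X, ℝ) → C(Y, ℝ)) (ψ : C(Y, ℝ) → C(X, ℝ)), UniformOnBounded φ →
      UniformOnBounded ψ → (∀ y, ∃ C : ℝ, ∀ f : C(Y, ℝ), |φ (ψ f) y - f y| ≤ C) →
      DimLE n X → DimLE n Y) ∧
    (∀ (φ : (X → ℝ) → Y → ℝ) (ψ : (Y → ℝ) → X → ℝ),
      (∀ Q, IsCompact Q → ContinuousOn φ Q) → (∀ Q, IsCompact Q → ContinuousOn ψ Q) →
      (∀ f, Continuous f → Continuous (φ f)) → (∀ f, Continuous f → Continuous (ψ f)) →
      (∀ y, ∃ C : ℝ, ∀ f, Continuous f → |φ (ψ f) y - f y| ≤ C) → DimLE n X → DimLE n Y) ∧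
    ∀ φ : (X → ℝ) ≃ₜ (Y → ℝ),
      φ '' {f | Continuous f} = {g | Continuous g} → (DimLE n X ↔ DimLE n Y) := by
  refine ⟨fun φ ψ hφ hψ hc hX => main3 hφ hψ hc hX,
    fun φ ψ hφ hψ h1 h2 hc hX => main4 hφ hψ h1 h2 hc hX, fun φ h => ?_⟩
  have h1 : ∀ f, Continuous f → Continuous (φ f) := fun f hf => by
    have : φ f ∈ φ '' {f | Continuous f} := ⟨f, hf, rfl⟩
    rw [h] at this; exact this
  have h2 : ∀ f, Continuous f → Continuous (φ.symm f) := fun f hf => by
    have : f ∈ φ '' {f | Continuous f} := by rw [h]; exact hf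
    obtain ⟨f', hf', rfl⟩ := this
    rw [φ.symm_apply_apply]; exact hf'
  exact ⟨fun hX => main4 (fun _ _ => φ.continuous.continuousOn)
    (fun _ _ => φ.symm.continuous.continuousOn) h1 h2 (fun y => ⟨0, fun f _ => by simp⟩) hX,
    fun hY => main4 (fun _ _ => φ.symm.continuous.continuousOn)
    (fun _ _ => φ.continuous.continuousOn) h2 h1 (fun y => ⟨0, fun f _ => by simp⟩) hY⟩

end Pool.Agent.Results.MP_e6a955_gt.CoarseRetract
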